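import Pool.Agent.H10.LDV2.Stmts
import Pool.Agent.H72.BL.RNQ

/-!
# LDV2, row RNQ
-/

set_option autoImplicit false

namespace Pool.LDV2

theorem rnq_thm : S_RNQ := Pool.BL72.rnq_thm

end Pool.LDV2
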